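import Mathlib
import Pool.Agent.R471.RD.Fin
import Pool.Agent.R471.RD.Num

/-!
Palindromes in base `b` with all digits in an interval of more than `2 b / 3` digits and few prime factors.
-/

set_option autoImplicit false

namespace Pool.Agent.Results.MP_e8d2ce_nt.MissingDigits

open Finset Filter Pool.Agent.W89.PW

open Classical in
/-- Let `b ≥ 3`, `2 b / 3 < k ≤ b`, `0 ≤ θ < 1`, and let `κ > 0` and `r` be such that
`b ^ κ (k + 1) < 2 (⌊2 b / 3⌋ + 1) (k - ⌊2 b / 3⌋)` and `2.0466 ≤ κ (r - 0.182) (1 - θ)`.  For all large `N`, all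
`K ≤ θ N`, all `w` with exactly `K + 1` base-`b` digits whose leading digit is prime to `b`, and all intervals
`{a, …, a + k - 1}` of `k` digits, at least `(2 b / 3) ^ (N - K)` of the numbers `n < b ^ (2 N + 1)` whose first
`K + 1` digits form `w` have a base-`b` digit sequence equal to its own reverse, have all digits in the places
`K + 1, …, 2 N - K - 1` in `{a, …, a + k - 1}`, and have at most `r` prime factors counted with multiplicity, each of
them larger than `b ^ (κ (N - K) / 7)`. -/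
theorem result (b k r : ℕ) (κ θ : ℝ) (hb : 3 ≤ b) (hk1 : 2 * b < 3 * k) (hk2 : k ≤ b) (hθ0 : 0 ≤ θ) (hθ1 : θ < 1)
    (hκ0 : 0 < κ) (hκ : (b : ℝ) ^ κ * (k + 1) < 2 * ((2 * b / 3 + 1 : ℕ) : ℝ) * ((k - 2 * b / 3 : ℕ) : ℝ))
    (hr : 20466 / 10000 ≤ κ * ((r : ℝ) - 182 / 1000) * (1 - θ)) :
    ∀ᶠ N : ℕ in atTop, ∀ K : ℕ, (K : ℝ) ≤ θ * N → ∀ w : ℕ, b ^ K ≤ w → w < b ^ (K + 1) →
      (w / b ^ K).Coprime b → ∀ a : ℕ, a + k ≤ b →
      (2 * (b : ℝ) / 3) ^ (N - K) ≤ (((range (b ^ (2 * N + 1))).filter (fun n => n / b ^ (2 * N - K) = w ∧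
        (Nat.digits b n).reverse = Nat.digits b n ∧
        (∀ i : ℕ, K < i → i < 2 * N - K → a ≤ n / b ^ i % b ∧ n / b ^ i % b < a + k) ∧
        n.primeFactorsList.length ≤ r ∧
        ∀ p ∈ n.primeFactorsList, (b : ℝ) ^ (κ * ((N - K : ℕ) : ℝ) / 7) < p)).card : ℝ) := by
  have h0 : 0 < 1 - θ := by linarith
  have hbR : (3 : ℝ) ≤ b := by exact_mod_cast hb
  obtain ⟨s, hs⟩ : ∃ s, s = 2 * b / 3 + 1 := ⟨_, rfl⟩
  obtain ⟨t, ht⟩ : ∃ t, t = k - 2 * b / 3 := ⟨_, rfl⟩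
  rw [← hs, ← ht] at hκ
  have hst : s + t = k + 1 := by omega
  have hs1 : 2 ≤ s := by omega
  have ht1 : 1 ≤ t := by omega
  have hs0 : (0 : ℝ) < s := by exact_mod_cast (by omega : 0 < s)
  have ht0 : (0 : ℝ) < t := by exact_mod_cast (by omega : 0 < t)
  have hH : (b : ℝ) ^ κ * HH s t < 1 := by
    have hstR : (s : ℝ) + t = k + 1 := by exact_mod_cast hst
    unfold HH
    rw [show (b : ℝ) ^ κ * ((1 / (s : ℝ) + 1 / t) / 2) = ((b : ℝ) ^ κ * (s + t)) / (2 * s * t) by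
      field_simp; ring]
    rw [div_lt_one (by positivity), hstR]
    exact hκ
  have hm4 := Pool.Agent.R471.RD.Num.m4_lt (b := b) (s := s) (t := t) hb hs ht1
  have hE : 2 * (b : ℝ) / 3 < ((s : ℝ) * t) ^ 2 / (Eset s t).card := by
    refine lt_of_lt_of_le ?_ (Pool.Agent.R471.RD.Num.s_le (by omega) ht1)
    rw [div_lt_iff₀ (by norm_num)]
    have : 2 * b < s * 3 := by omega
    exact_mod_cast this
  have hr0 : 0 < (r : ℝ) - 182 / 1000 := by
    by_contra hcon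
    push Not at hcon
    have h1 : κ * ((r : ℝ) - 182 / 1000) ≤ 0 := mul_nonpos_of_nonneg_of_nonpos hκ0.le hcon
    have h2 : κ * ((r : ℝ) - 182 / 1000) * (1 - θ) ≤ 0 := mul_nonpos_of_nonpos_of_nonneg h1 h0.le
    linarith
  have hr' : 1 / (8466 / 10000 : ℝ) + 88 / (43 * κ * (1 - θ)) < r + 1 := by
    have h3 : 88 / (43 * κ * (1 - θ)) ≤ (88 / 43) / (20466 / 10000) * ((r : ℝ) - 182 / 1000) := by
      have h4 : 0 < 43 * κ * (1 - θ) := by positivity
      rw [div_le_iff₀ h4]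
      have h5 : (88 / 43) / (20466 / 10000) * ((r : ℝ) - 182 / 1000) * (43 * κ * (1 - θ)) =
          88 / (20466 / 10000) * (κ * ((r : ℝ) - 182 / 1000) * (1 - θ)) := by ring
      rw [h5]
      have h6 := mul_le_mul_of_nonneg_left hr (show (0 : ℝ) ≤ 88 / (20466 / 10000) by norm_num)
      have h7 : (88 : ℝ) / (20466 / 10000) * (20466 / 10000) = 88 := by norm_num
      linarith
    have h8 : (88 / 43 : ℝ) / (20466 / 10000) * ((r : ℝ) - 182 / 1000) ≤ (r : ℝ) - 182 / 1000 :=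
      mul_le_of_le_one_left hr0.le (by norm_num)
    norm_num
    norm_num at h3 h8
    linarith
  have e : ∀ M : ℕ, (b : ℝ) ^ (κ / 7 * (M : ℝ)) = (b : ℝ) ^ (κ * (M : ℝ) / 7) := by
    intro M
    congr 1
    ring
  have hmain := Pool.Agent.R471.RD.Fin.rdN (b := b) (s := s) (t := t) (r := r) (κ := κ) (lam := 8466 / 10000)
    (B := 2 * (b : ℝ) / 3) (η := κ / 7) (θ := θ) hb hs1 ht1 (by omega) hκ0 hH hm4 (by norm_num) (by norm_num)
    (by norm_num) hθ0 hθ1 hr' (by linarith) hE (by linarith)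
  filter_upwards [hmain] with N hN K hK w hw1 hw2 hw3 a ha
  have hN' := hN K hK w hw1 hw2 hw3 a (by omega)
  refine hN'.trans ?_
  have hsub : ∀ S T : Finset ℕ, S ⊆ T → (S.card : ℝ) ≤ T.card := fun S T h => by exact_mod_cast card_le_card h
  apply hsub
  intro n hn
  rw [mem_filter] at hn ⊢
  obtain ⟨h1, h2, h3, h4, h5, h6⟩ := hn
  refine ⟨h1, h2, h3, fun i hi1 hi2 => ?_, h5, fun p hp => ?_⟩
  · have := h4 i hi1 hi2
    omega
  · have := h6 p hp
    rw [← e]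
    exact this

end Pool.Agent.Results.MP_e8d2ce_nt.MissingDigits
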