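import Mathlib
import Pool.Agent.R471.PP.Final

/-!
# Polynomial values at palindromes, every base

For every polynomial `F` with integer coefficients such that `n F(n)` has no fixed prime divisor there are many base-`b`
palindromes `n` for which both `n` and `F(n)` have a bounded number of prime factors, all of them large; also with
prescribed leading digits (in short intervals).
-/

set_option autoImplicit false

namespace Pool.Agent.Results.MP_e8d2ce_nt.PolynomialValues

open Finset Polynomial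

/-- the base-`b` palindromes with exactly `2 N + 1` digits -/
def Pal (b N : ℕ) : Finset ℕ :=
  (range (b ^ (2 * N + 1))).filter (fun n => b ^ (2 * N) ≤ n ∧ (Nat.digits b n).reverse = Nat.digits b n)

/-- `F(n) ≠ 0`, and every prime factor `p` of `n F(n)` satisfies `p ^ B > y` -/
def Rough (F : ℤ[X]) (B y n : ℕ) : Prop :=
  F.eval (n : ℤ) ≠ 0 ∧ ∀ p : ℕ, p.Prime → (p : ℤ) ∣ (n : ℤ) * F.eval (n : ℤ) → y < p ^ B

/-- the number of prime factors of `|z|`, counted with multiplicity -/
def Om (z : ℤ) : ℕ := z.natAbs.primeFactorsList.length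

open Classical in
/-- Let `b ≥ 2` and let `F` be a polynomial with integer coefficients such that no prime divides `n F(n)` for all `n`.
There are `c > 0`, `B` and `N₀` with the following properties.

(1) For `N ≥ N₀` at least `c b ^ N / N ^ B` of the palindromes `n` with `2 N + 1` digits are such that `n` and `F(n)` have
at most `B` prime factors each, all of them larger than `b ^ (N / B)`.

(2) For `N₀ ≤ L < N` and every `x` with `2 N + 1` digits whose leading digit `d` is such that `d F(d)` is prime to `b`, at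
least `c b ^ L / L ^ B` of the palindromes `n` with `2 N + 1` digits have the same `N - L` leading digits as `x` and are
such that all prime factors of `n F(n)` are larger than `b ^ (L / B)`, and `n` and `F(n)` have at most `B N / L` prime
factors each. -/
theorem result (b : ℕ) (hb : 2 ≤ b) (F : ℤ[X])
    (hF : ∀ p : ℕ, p.Prime → ∃ n : ℕ, ¬ (p : ℤ) ∣ (n : ℤ) * F.eval (n : ℤ)) :
    ∃ c : ℝ, 0 < c ∧ ∃ B N₀ : ℕ,
    (∀ N : ℕ, N₀ ≤ N → c * (b : ℝ) ^ N / (N : ℝ) ^ B ≤
      (((Pal b N).filter (fun n => Rough F B (b ^ N) n ∧ Om n ≤ B ∧ Om (F.eval (n : ℤ)) ≤ B)).card : ℝ)) ∧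
    (∀ L N x : ℕ, N₀ ≤ L → L < N → b ^ (2 * N) ≤ x → x < b ^ (2 * N + 1) →
      IsCoprime (((x / b ^ (2 * N) : ℕ) : ℤ) * F.eval ((x / b ^ (2 * N) : ℕ) : ℤ)) (b : ℤ) →
      c * (b : ℝ) ^ L / (L : ℝ) ^ B ≤
        (((Pal b N).filter (fun n => n / b ^ (N + L + 1) = x / b ^ (N + L + 1) ∧ Rough F B (b ^ L) n ∧
          Om n * L ≤ B * N ∧ Om (F.eval (n : ℤ)) * L ≤ B * N)).card : ℝ)) := by
  obtain ⟨c, hc, B, N₀, h1, h2⟩ := Pool.Agent.R471.PP.final hb F hF
  refine ⟨c, hc, B, N₀, fun N hN => ?_, fun L N x hL hN hx1 hx2 hd => ?_⟩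
  · refine (h1 N hN).trans ?_
    rw [Nat.cast_le]
    apply card_le_card
    intro n hn
    rw [mem_filter] at hn
    rw [mem_filter, Pal, mem_filter]
    obtain ⟨a1, a2, a3, a4, a5, a6, a7⟩ := hn
    exact ⟨⟨a1, a2, a3⟩, ⟨a4, a5⟩, by simpa [Om] using a6, a7⟩
  · refine (h2 L N x hL hN hx1 hx2 hd).trans ?_
    rw [Nat.cast_le]
    apply card_le_card
    intro n hn
    rw [mem_filter] at hn
    rw [mem_filter, Pal, mem_filter]
    obtain ⟨a1, a2, a3, a4, a5, a6, a7⟩ := hn
    have hb0 : 0 < b := by omega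
    have e1 : b ^ (2 * N) ≤ n := by
      have e2 : b ^ (2 * N) / b ^ (N + L + 1) ≤ n / b ^ (N + L + 1) := by
        rw [a3]
        exact Nat.div_le_div_right hx1
      have e3 : b ^ (2 * N) = b ^ (2 * N - (N + L + 1)) * b ^ (N + L + 1) := by
        rw [← pow_add]
        congr 1
        omega
      rw [e3, Nat.mul_div_cancel _ (by positivity)] at e2
      calc b ^ (2 * N) = b ^ (2 * N - (N + L + 1)) * b ^ (N + L + 1) := e3
        _ ≤ n / b ^ (N + L + 1) * b ^ (N + L + 1) := Nat.mul_le_mul_right _ e2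
        _ ≤ n := Nat.div_mul_le_self _ _
    exact ⟨⟨a1, e1, a2⟩, a3, ⟨a4, a5⟩, by simpa [Om] using a6, a7⟩

end Pool.Agent.Results.MP_e8d2ce_nt.PolynomialValues
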