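import Mathlib
import Pool.Agent.R471.PalShortFin
import Pool.Agent.W139.PX.E3

/-!
Palindromes in base `b ≥ 3` with a prescribed initial block of digits and few prime factors.
-/

set_option autoImplicit false

namespace Pool.Agent.Results.MP_e8d2ce_nt.PrescribedLeadingDigits

open Finset Filter Pool.Agent.W89.PW

/-- Let `b ≥ 3`, `0 ≤ θ < 1` and `C ≤ (r - 0.182) (1 - θ)` with `C = 2.8` for `b ≥ 9` and `C = 3.25` for
`3 ≤ b ≤ 8`.  For all large `N`, all `K ≤ θ N` and all `w` with exactly `K + 1` digits in base `b` whose leading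
digit is prime to `b`, at least `(3 b / 4) ^ (N - K)` of the numbers `n < b ^ (2 N + 1)` whose first `K + 1` digits
form `w` (that is `n / b ^ (2 N - K) = w`) have a base-`b` digit sequence equal to its own reverse and at most `r`
prime factors counted with multiplicity, each of them larger than `b ^ ((N - K) / 13)`. -/
theorem result (b : ℕ) (hb : 3 ≤ b) (r : ℕ) (θ : ℝ) (hθ0 : 0 ≤ θ) (hθ1 : θ < 1)
    (hr : (if 9 ≤ b then 28 / 10 else 325 / 100) ≤ ((r : ℝ) - 182 / 1000) * (1 - θ)) :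
    ∀ᶠ N : ℕ in atTop, ∀ K : ℕ, (K : ℝ) ≤ θ * N → ∀ w : ℕ, b ^ K ≤ w → w < b ^ (K + 1) →
      (w / b ^ K).Coprime b →
      (3 * (b : ℝ) / 4) ^ (N - K) ≤ (((range (b ^ (2 * N + 1))).filter (fun n => n / b ^ (2 * N - K) = w ∧
        (Nat.digits b n).reverse = Nat.digits b n ∧ n.primeFactorsList.length ≤ r ∧
        ∀ p ∈ n.primeFactorsList, (b : ℝ) ^ (((N - K : ℕ) : ℝ) / 13) < p)).card : ℝ) := by
  classical
  obtain ⟨s, hs⟩ : ∃ s, s = (b + 1) / 2 := ⟨_, rfl⟩
  obtain ⟨t, ht⟩ : ∃ t, t = b + 1 - s := ⟨_, rfl⟩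
  have hm4 : (b : ℝ) * m4 s t < 1 := by
    have h := Pool.Agent.W22.PWM4.main b hb
    rw [← hs, ← ht] at h
    linarith
  have hE := Pool.Agent.W139.PX.energy_bound hb hs ht
  have hbR : (3 : ℝ) ≤ b := by exact_mod_cast hb
  have h0 : 0 < 1 - θ := by linarith
  have e : ∀ M : ℕ, (b : ℝ) ^ (1 / 13 * (M : ℝ)) = (b : ℝ) ^ ((M : ℝ) / 13) := by
    intro M
    congr 1
    ring
  rcases lt_or_ge b 9 with h9 | h9
  · have hr' : 1 / (8466 / 10000 : ℝ) + 88 / (43 * (63 / 100 : ℝ) * (1 - θ)) < r + 1 := by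
      rw [if_neg (by omega)] at hr
      have h1 : 88 / (43 * (63 / 100 : ℝ) * (1 - θ)) = (8800 / 2709) / (1 - θ) := by
        field_simp
        norm_num
      have h2 : (8800 / 2709 : ℝ) / (1 - θ) < (r : ℝ) - 182 / 1000 := by
        rw [div_lt_iff₀ h0]
        norm_num
        linarith
      rw [h1]
      norm_num
      linarith
    have h := Pool.Agent.R471.PShort.shortN (b := b) (s := s) (t := t) (r := r) (κ := 63 / 100)
      (lam := 8466 / 10000) (B := 3 * (b : ℝ) / 4) (η := 1 / 13) (θ := θ) hb (by omega) (by omega) (by omega)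
      (by norm_num) (Pool.Agent.W139.PX.kap3 hb (by omega) hs ht) hm4 (by norm_num) (by norm_num) (by norm_num)
      hθ0 hθ1 hr' (by linarith) hE (by norm_num)
    simp only [e] at h
    filter_upwards [h] with N hN K hK w hw1 hw2 hw3
    have hN' := hN K hK w hw1 hw2 hw3
    convert hN'
  · have hr' : 1 / (8466 / 10000 : ℝ) + 88 / (43 * (183 / 250 : ℝ) * (1 - θ)) < r + 1 := by
      rw [if_pos h9] at hr
      have h1 : 88 / (43 * (183 / 250 : ℝ) * (1 - θ)) = (22000 / 7869) / (1 - θ) := by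
        field_simp
        norm_num
      have h2 : (22000 / 7869 : ℝ) / (1 - θ) < (r : ℝ) - 182 / 1000 := by
        rw [div_lt_iff₀ h0]
        norm_num
        linarith
      rw [h1]
      norm_num
      linarith
    have h := Pool.Agent.R471.PShort.shortN (b := b) (s := s) (t := t) (r := r) (κ := 183 / 250)
      (lam := 8466 / 10000) (B := 3 * (b : ℝ) / 4) (η := 1 / 13) (θ := θ) hb (by omega) (by omega) (by omega)
      (by norm_num) (Pool.Agent.W139.PX.kap9 h9 hs ht) hm4 (by norm_num) (by norm_num) (by norm_num)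
      hθ0 hθ1 hr' (by linarith) hE (by norm_num)
    simp only [e] at h
    filter_upwards [h] with N hN K hK w hw1 hw2 hw3
    have hN' := hN K hK w hw1 hw2 hw3
    convert hN'

end Pool.Agent.Results.MP_e8d2ce_nt.PrescribedLeadingDigits
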