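import Mathlib
import Pool.Agent.R471.PP.Cls3

/-!
# Palindromes in every base with few prime factors in residue classes

For almost all moduli `q ≤ b ^ (L / 5)` prime to `2 b`, in every residue class prime to `q` the number of `b`-palindromes
with prescribed leading digits (all but `L` of the free digits are prescribed) without small prime factors has
the expected order of magnitude, and the number of palindromic primes has the corresponding upper bound.
-/

set_option autoImplicit false

namespace Pool.Agent.Results.MP_e8d2ce_nt.ResidueClasses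

open Finset

/-- the `b`-palindromes `n` with exactly `2 N + 1` base `b` digits which have the same `N - L` leading digits as `x` (a number
with `2 N + 1` digits), and which are congruent to `a` modulo `q` -/
def Cl (b N L x q a : ℕ) : Finset ℕ :=
  (range (b ^ (2 * N + 1))).filter (fun n => b ^ (2 * N) ≤ n ∧ (Nat.digits b n).reverse = Nat.digits b n ∧
    n / b ^ (N + L + 1) = x / b ^ (N + L + 1) ∧ n % q = a % q)

/-- every prime factor `p` of `n` satisfies `p ^ B > y` -/
def Rough (B y n : ℕ) : Prop := ∀ p : ℕ, p.Prime → p ∣ n → y < p ^ B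

open Classical in
/-- Let `b ≥ 2`.  For every `A` there are `c > 0`, `C > 0`, `B` and `L₀` such that for every `L ≥ L₀` there is a set `E` of at most
`b ^ (L / 5) / L ^ A` exceptional moduli, all larger than `L ^ A`, with the following property.  Let `q ≤ b ^ (L / 5)`
be prime to `2 b` and not in `E`, let `a` be prime to `q`, let `N > L`, and let `x` have `2 N + 1` base `b` digits.  Among the
palindromes with `2 N + 1` digits, with the `N - L` leading digits of `x` and congruent to `a` modulo `q` there are
(1) at most `C b ^ L / (φ(q) L)` whose prime factors are all larger than `b ^ (L / B)`,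
(2) at most `C b ^ L / (φ(q) L)` primes,
(3) if the leading digit of `x` is prime to `b`, at least `c b ^ L / (φ(q) L)` which have at most `B (2 N + 1) / L`
prime factors (counted with multiplicity), all of them larger than `b ^ (L / B)`. -/
theorem result (b : ℕ) (hb : 2 ≤ b) (A : ℕ) : ∃ c C : ℝ, 0 < c ∧ 0 < C ∧ ∃ B L₀ : ℕ, ∀ L : ℕ, L₀ ≤ L →
    ∃ E : Finset ℕ, (E.card : ℝ) * (L : ℝ) ^ A ≤ (b : ℝ) ^ (L / 5) ∧ (∀ q ∈ E, (L : ℝ) ^ A < q) ∧
    ∀ q a : ℕ, q ≤ b ^ (L / 5) → q.Coprime (2 * b) → q ∉ E → a.Coprime q →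
    ∀ N x : ℕ, L < N → b ^ (2 * N) ≤ x → x < b ^ (2 * N + 1) →
    ((((Cl b N L x q a).filter (fun n => Rough B (b ^ L) n)).card : ℝ) ≤ C * (b : ℝ) ^ L / (q.totient * L)) ∧
    ((((Cl b N L x q a).filter (fun n => n.Prime)).card : ℝ) ≤ C * (b : ℝ) ^ L / (q.totient * L)) ∧
    ((x / b ^ (2 * N)).Coprime b → c * (b : ℝ) ^ L / (q.totient * L) ≤
      (((Cl b N L x q a).filter (fun n => Rough B (b ^ L) n ∧
        n.primeFactorsList.length * L ≤ B * (2 * N + 1))).card : ℝ)) := by
  obtain ⟨c, C, hc, hC, B, L₀, h⟩ := Pool.Agent.R471.PP.classes' hb A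
  refine ⟨c, C, hc, hC, B, L₀, fun L hL => ?_⟩
  obtain ⟨E, h1, h2, h3⟩ := h L hL
  refine ⟨E, h1, h2, fun q a hq hqc hqE ha N x hN hx1 hx2 => ?_⟩
  obtain ⟨h4, h5, h6⟩ := h3 q a hq hqc hqE ha N x hN hx1 hx2
  refine ⟨le_trans (le_of_eq ?_) h4, le_trans (le_of_eq ?_) h5, fun hd => (h6 hd).trans (le_of_eq ?_)⟩
  · rw [Cl, filter_filter]
    congr 2
    apply filter_congr
    intro n _
    simp only [Rough, Nat.ModEq, and_assoc]
  · rw [Cl, filter_filter]
    congr 2
    apply filter_congr
    intro n _
    simp only [Nat.ModEq, and_assoc]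
  · rw [Cl, filter_filter]
    congr 2
    apply filter_congr
    intro n _
    simp only [Rough, Nat.ModEq, and_assoc]

end Pool.Agent.Results.MP_e8d2ce_nt.ResidueClasses
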